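import Pool.Agent.Y667.PA.Stm
import Pool.Agent.Y655.RZ.Par

/-!
# Project PA: ABSB
-/

set_option autoImplicit false

namespace Pool.Agent.Y350.PA

open Finset Pool.Agent.W262.RK Pool.Agent.W307.RT Pool.Agent.W307.RS Pool.Agent.W307.SE
  Pool.Agent.W307.FK Pool.Agent.Y667.RP Pool.Agent.Y667.RZ Pool.Agent.Y667.PA
  Pool.Agent.Y655.RZ

/-- the condition at a prime of `a` -/
def LPa (s e : Bool) (v w h g : Bool) : Prop := h = (v && s) ∧ g = (w && xor s e)

/-- the condition at a prime where `-a` is not a square -/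
def LPn (v w _h _g : Bool) : Prop := w = false ∧ v = false

/-- the condition at a prime where `-a` is a square -/
def LPs (_v w _h g : Bool) : Prop := w = false ∧ g = false

/-- the first class is locally trivial -/
def LU (v _w h _g : Bool) : Prop := v = false ∧ h = false

lemma LP_a {a : ℤ} {p : ℕ} (h : (p : ℤ) ∣ a) : LP a p = LPa (sgn p a) (sg0 p (-1)) := by
  funext v w x g
  unfold LP LPa
  rw [if_pos h]

lemma LP_n {a : ℤ} {p : ℕ} (h : ¬ (p : ℤ) ∣ a) (hJ : jacobiSym (-a) p = -1) :
    LP a p = LPn := by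
  funext v w x g
  unfold LP LPn
  rw [if_neg h, if_pos hJ]

lemma LP_s {a : ℤ} {p : ℕ} (h : ¬ (p : ℤ) ∣ a) (hJ : ¬ jacobiSym (-a) p = -1) :
    LP a p = LPs := by
  funext v w x g
  unfold LP LPs
  rw [if_neg h, if_neg hJ]

lemma xcLPa (s e : Bool) : XC (LPa s e) := by
  refine ⟨⟨by simp, by simp⟩, ?_⟩
  rintro a b c d a' b' c' d' ⟨rfl, rfl⟩ ⟨rfl, rfl⟩
  unfold LPa
  revert s e a b a' b'
  decide

lemma xcLPn : XC LPn := by
  refine ⟨⟨rfl, rfl⟩, ?_⟩
  rintro a b c d a' b' c' d' ⟨rfl, rfl⟩ ⟨rfl, rfl⟩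
  exact ⟨rfl, rfl⟩

lemma xcLPs : XC LPs := by
  refine ⟨⟨rfl, rfl⟩, ?_⟩
  rintro a b c d a' b' c' d' ⟨rfl, rfl⟩ ⟨rfl, rfl⟩
  exact ⟨rfl, rfl⟩

lemma xcLU : XC LU := by
  refine ⟨⟨rfl, rfl⟩, ?_⟩
  rintro a b c d a' b' c' d' ⟨rfl, rfl⟩ ⟨rfl, rfl⟩
  exact ⟨rfl, rfl⟩

lemma xcLP (a : ℤ) (p : ℕ) : XC (LP a p) := by
  by_cases h : (p : ℤ) ∣ a
  · rw [LP_a h]; exact xcLPa _ _
  · by_cases hJ : jacobiSym (-a) p = -1
    · rw [LP_n h hJ]; exact xcLPn
    · rw [LP_s h hJ]; exact xcLPs

lemma key_card (n : ℕ) (P : XX → Prop) [DecidablePred P] (h : Fintype.card {x : XX // P x} = n) :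
    Nat.card {x : XX // P x} = n := by
  rw [Nat.card_eq_fintype_card, h]

lemma card_LPa (s e : Bool) : Nat.card {x : XX // LX (LPa s e) x} = 4 := by
  unfold LX LPa
  cases s <;> cases e
  all_goals exact key_card _ _ (by decide)

lemma card_LPn : Nat.card {x : XX // LX LPn x} = 4 := by
  unfold LX LPn
  exact key_card _ _ (by decide)

lemma card_LPs : Nat.card {x : XX // LX LPs x} = 4 := by
  unfold LX LPs
  exact key_card _ _ (by decide)

lemma card_LU : Nat.card {x : XX // LX LU x} = 4 := by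
  unfold LX LU
  exact key_card _ _ (by decide)

lemma card_LP (a : ℤ) (p : ℕ) : Nat.card {x : XX // LX (LP a p) x} = 4 := by
  by_cases h : (p : ℤ) ∣ a
  · rw [LP_a h]; exact card_LPa _ _
  · by_cases hJ : jacobiSym (-a) p = -1
    · rw [LP_n h hJ]; exact card_LPn
    · rw [LP_s h hJ]; exact card_LPs

lemma card_LPaU (s e : Bool) : Nat.card {x : XX // LX (LPa s e) x ∧ LX LU x} = 2 := by
  unfold LX LPa LU
  cases s <;> cases e
  all_goals exact key_card _ _ (by decide)

lemma card_LPnU : Nat.card {x : XX // LX LPn x ∧ LX LU x} = 2 := by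
  unfold LX LPn LU
  exact key_card _ _ (by decide)

lemma card_LPsU : Nat.card {x : XX // LX LPs x ∧ LX LU x} = 1 := by
  unfold LX LPs LU
  exact key_card _ _ (by decide)

open Classical in
lemma card_LPU (a : ℤ) (p : ℕ) : Nat.card {x : XX // LX (LP a p) x ∧ LX LU x} =
    2 ^ (if ¬ (p : ℤ) ∣ a ∧ ¬ jacobiSym (-a) p = -1 then 0 else 1) := by
  by_cases h : (p : ℤ) ∣ a
  · rw [LP_a h, if_neg (fun h' => h'.1 h)]; exact card_LPaU _ _
  · by_cases hJ : jacobiSym (-a) p = -1
    · rw [LP_n h hJ, if_neg (fun h' => h'.2 hJ)]; exact card_LPnU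
    · rw [LP_s h hJ, if_pos ⟨h, hJ⟩]; exact card_LPsU

lemma qbLP {e : Bool} {a : ℤ} {p : ℕ} (he : e = sg0 p (-1)) {v w h g : Bool}
    (h1 : LP a p v w h g) : qb e false false false false v w h g = false := by
  by_cases h0 : (p : ℤ) ∣ a
  · rw [LP_a h0] at h1
    obtain ⟨h2, h3⟩ := h1
    rw [← he] at h3
    clear he
    generalize sgn p a = s at h2 h3
    subst h2 h3
    revert e s v w
    unfold qb Pool.Agent.Y667.RP.hb
    decide
  · by_cases hJ : jacobiSym (-a) p = -1
    · rw [LP_n h0 hJ] at h1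
      obtain ⟨rfl, rfl⟩ := h1
      clear he
      revert e h g
      unfold qb Pool.Agent.Y667.RP.hb
      decide
    · rw [LP_s h0 hJ] at h1
      obtain ⟨rfl, rfl⟩ := h1
      clear he
      revert e h v
      unfold qb Pool.Agent.Y667.RP.hb
      decide

lemma qbLU {e : Bool} {v w h g : Bool} (h1 : LU v w h g) :
    qb e false false false false v w h g = false := by
  obtain ⟨rfl, rfl⟩ := h1
  revert e w g
  unfold qb Pool.Agent.Y667.RP.hb
  decide

lemma dv_one' {p : ℕ} (hp : p.Prime) : dv p 1 = false := by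
  unfold dv
  rw [decide_eq_false_iff_not]
  intro h
  have h' : p ∣ 1 := Int.natCast_dvd_natCast.1 (by simpa using h)
  exact hp.one_lt.ne' (Nat.dvd_one.1 h')

lemma sgn_one' (p : ℕ) : sgn p 1 = false := by
  unfold sgn sg0
  simp

/-- the number of the classes with trivial first component -/
lemma card_U {M : ℕ} (hM : Squarefree M) (hMo : Odd M) :
    (VG M (fun _ => LU)).ncard = 2 ^ (M.primeFactors.card + 2) := by
  classical
  set S4 : Finset ℤ := {1, -1, 2, -2} with hS4
  have hodd : ∀ d ∈ M.divisors, d % 2 = 1 := by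
    intro d hd
    have h1 := Nat.dvd_of_mem_divisors hd
    exact Nat.odd_iff.1 (Odd.of_dvd_nat hMo h1)
  set f : ℤ × ℕ → ℤ × ℤ := fun t => (1, t.1 * (t.2 : ℤ)) with hf
  have hS4m : ∀ σ ∈ S4, σ = 1 ∨ σ = -1 ∨ σ = 2 ∨ σ = -2 := by
    intro σ hσ
    simpa [hS4] using hσ
  have hS4m' : ∀ σ : ℤ, (σ = 1 ∨ σ = -1 ∨ σ = 2 ∨ σ = -2) → σ ∈ S4 := by
    intro σ hσ
    simpa [hS4] using hσ
  have hinj : Set.InjOn f (S4 ×ˢ M.divisors : Finset (ℤ × ℕ)) := by
    rintro ⟨σ, g⟩ ht ⟨σ', g'⟩ ht' h
    rw [mem_coe, mem_product] at ht ht'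
    obtain ⟨h2, h3⟩ := ht
    obtain ⟨k2, k3⟩ := ht'
    simp only at h2 h3 k2 k3
    simp only [hf, Prod.mk.injEq] at h
    obtain ⟨-, e2⟩ := h
    have o1 := hodd g h3
    have o2 := hodd g' k3
    have e4 : σ = σ' ∧ g = g' := by
      rcases hS4m σ h2 with rfl | rfl | rfl | rfl <;>
        rcases hS4m σ' k2 with rfl | rfl | rfl | rfl <;>
        first
        | (refine ⟨rfl, ?_⟩; omega)
        | (exfalso; omega)
    rw [e4.1, e4.2]
  have himg : ((S4 ×ˢ M.divisors).image f : Set (ℤ × ℤ)) = VG M (fun _ => LU) := by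
    apply Set.Subset.antisymm
    · intro x hx
      rw [mem_coe, mem_image] at hx
      obtain ⟨⟨σ, g⟩, ht, rfl⟩ := hx
      rw [mem_product] at ht
      obtain ⟨h2, h3⟩ := ht
      simp only at h2 h3
      have o1 := hodd g h3
      have hg : Squarefree g := hM.squarefree_of_dvd (Nat.dvd_of_mem_divisors h3)
      have hσ := hS4m σ h2
      refine ⟨squarefree_one, ?_, one_pos, by norm_num, ?_, ?_, ?_⟩
      · show Squarefree (σ * (g : ℤ))
        rw [← Int.squarefree_natAbs, Int.natAbs_mul, Int.natAbs_natCast]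
        rcases hσ with rfl | rfl | rfl | rfl
        · simpa using hg
        · simpa using hg
        · show Squarefree (2 * g)
          rw [Nat.squarefree_mul ((Nat.coprime_two_left (n := g)).2 (Nat.odd_iff.2 o1))]
          exact ⟨Nat.prime_two.prime.irreducible.squarefree, hg⟩
        · show Squarefree (2 * g)
          rw [Nat.squarefree_mul ((Nat.coprime_two_left (n := g)).2 (Nat.odd_iff.2 o1))]
          exact ⟨Nat.prime_two.prime.irreducible.squarefree, hg⟩
      · intro q hq h
        exact absurd (Int.natCast_dvd_natCast.1 (by simpa using h)) (fun h' : q ∣ 1 =>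
          hq.one_lt.ne' (Nat.dvd_one.1 h'))
      · intro q hq hqd
        have hqd' : (q : ℤ) ∣ σ * (g : ℤ) := hqd
        rcases (Nat.prime_iff_prime_int.1 hq).dvd_or_dvd hqd' with h | h
        · have h5 : (q : ℤ) ∣ 2 := by
            rcases hσ with rfl | rfl | rfl | rfl
            · exact h.trans (by norm_num)
            · exact h.trans (by norm_num)
            · exact h
            · exact h.trans (by norm_num)
          have h6 : q ∣ 2 := by exact_mod_cast h5
          exact h6.mul_right _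
        · exact ((Int.natCast_dvd_natCast.1 h).trans (Nat.dvd_of_mem_divisors h3)).mul_left _
      · intro p hp
        exact ⟨dv_one' (Nat.prime_of_mem_primeFactors hp), sgn_one' p⟩
    · rintro d ⟨h1, h2, h3, h4, h5, h6, h7⟩
      have e1 : d.1 = 1 := by
        have : d.1.natAbs = 1 := by
          rw [Nat.eq_one_iff_not_exists_prime_dvd]
          intro q hq hqd
          have hqd' : (q : ℤ) ∣ d.1 := Int.natCast_dvd.mpr hqd
          have hqM := h5 q hq hqd'
          have := (h7 q (Nat.mem_primeFactors.2 ⟨hq, hqM, hM.ne_zero⟩)).1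
          unfold dv at this
          rw [decide_eq_false_iff_not] at this
          exact this hqd'
        omega
      have hpn : ∀ q : ℕ, q.Prime → q ≠ 2 → q ∣ 2 * M → q ∣ M := by
        intro q hq hq2 h
        rcases (hq.dvd_mul).1 h with h | h
        · exact absurd ((Nat.prime_dvd_prime_iff_eq hq Nat.prime_two).1 h) hq2
        · exact h
      rw [mem_coe, mem_image]
      by_cases hev : (2 : ℤ) ∣ d.2
      · obtain ⟨t, ht⟩ := hev
        have hts : Squarefree t := h2.squarefree_of_dvd ⟨2, by rw [ht, mul_comm]⟩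
        have ht2 : ¬ (2 : ℤ) ∣ t := by
          rintro ⟨u, hu⟩
          have h8 : (2 : ℤ) * 2 ∣ d.2 := ⟨u, by rw [ht, hu]; ring⟩
          have h9 := h2 2 h8
          rw [Int.isUnit_iff] at h9
          omega
        have htM : t.natAbs ∣ M := by
          apply natAbs_dvd hts
          intro q hq hqd
          apply hpn q hq
          · rintro rfl
            exact ht2 hqd
          · exact h6 q hq (by rw [ht]; exact dvd_mul_of_dvd_right hqd _)
        refine ⟨(if 0 ≤ t then 2 else -2, t.natAbs), ?_, ?_⟩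
        · rw [mem_product]
          refine ⟨?_, Nat.mem_divisors.2 ⟨htM, hM.ne_zero⟩⟩
          apply hS4m'
          split_ifs <;> simp
        · simp only [hf]
          refine Prod.ext e1.symm ?_
          simp only
          rw [ht]
          split_ifs with h
          · omega
          · omega
      · have htM : d.2.natAbs ∣ M := by
          apply natAbs_dvd h2
          intro q hq hqd
          apply hpn q hq
          · rintro rfl
            exact hev hqd
          · exact h6 q hq hqd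
        refine ⟨(if 0 ≤ d.2 then 1 else -1, d.2.natAbs), ?_, ?_⟩
        · rw [mem_product]
          refine ⟨?_, Nat.mem_divisors.2 ⟨htM, hM.ne_zero⟩⟩
          apply hS4m'
          split_ifs <;> simp
        · simp only [hf]
          refine Prod.ext e1.symm ?_
          simp only
          split_ifs with h
          · omega
          · omega
  rw [← himg, Set.ncard_coe_finset, card_image_of_injOn hinj, card_product, card_div hM]
  have h4 : S4.card = 4 := by rw [hS4]; decide
  rw [h4]
  ring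

theorem ABSB' (hLAG : St_LAG) : St_ABSB := by
  classical
  intro M a hM hMo hS ha haM
  have hp : ∀ p ∈ M.primeFactors, p.Prime := fun p hp => Nat.prime_of_mem_primeFactors hp
  have hxM : ∀ q : ℕ, q.Prime → (q : ℤ) ∣ 1 → q ∣ M := by
    intro q hq h
    exact absurd (Int.natCast_dvd_natCast.1 (by simpa using h)) (fun h' : q ∣ 1 =>
      hq.one_lt.ne' (Nat.dvd_one.1 h'))
  have hyM : ∀ q : ℕ, q.Prime → (q : ℤ) ∣ 1 → q ∣ 2 * M := fun q hq h =>
    (hxM q hq h).mul_left _
  have hQA := QQ_AM hMo (x0 := 1) (y0 := 1) squarefree_one one_pos (by norm_num) squarefree_one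
    hxM hyM
  have hfA := finrank_AM hM hMo hS (x0 := 1) (y0 := 1) squarefree_one one_pos (by norm_num)
    squarefree_one hxM hyM
  have hQW := QQ_WL (N := M.primeFactors) (e := fun p => sg0 p (-1))
    (a := fun p => sgn p 1) (b := fun p => dv p 1)
    (c := fun p => dv p 1) (d := fun p => sgn p 1) (L := LP a)
    (hL := xcLP a) (by
      intro p hpN v w h g hL
      rw [dv_one' (hp p hpN), sgn_one']
      exact qbLP rfl hL)
  have hQW' := QQ_WL (N := M.primeFactors) (e := fun p => sg0 p (-1))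
    (a := fun p => sgn p 1) (b := fun p => dv p 1)
    (c := fun p => dv p 1) (d := fun p => sgn p 1) (L := fun _ => LU)
    (hL := fun _ => xcLU) (by
      intro p hpN v w h g hL
      rw [dv_one' (hp p hpN), sgn_one']
      exact qbLU hL)
  have hfW : Module.finrank (ZMod 2) (WL M.primeFactors (LP a) (xcLP a)) =
      2 * M.primeFactors.card := by
    apply finrank_of_card
    rw [card_WL, prod_congr rfl (g := fun _ => 4), prod_const, pow_mul]
    · norm_num
    · intro p _
      exact card_LP a p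
  have hfW' : Module.finrank (ZMod 2) (WL M.primeFactors (fun _ => LU) (fun _ => xcLU)) =
      2 * M.primeFactors.card := by
    apply finrank_of_card
    rw [card_WL, prod_congr rfl (g := fun _ => 4), prod_const, pow_mul]
    · norm_num
    · intro p _
      exact card_LU
  have hfI : Module.finrank (ZMod 2) (WL M.primeFactors (LP a) (xcLP a) ⊓
      WL M.primeFactors (fun _ => LU) (fun _ => xcLU) :
        Submodule (ZMod 2) (M.primeFactors → XX)) =
      ∑ p ∈ M.primeFactors, (if ¬ (p : ℤ) ∣ a ∧ ¬ jacobiSym (-a) p = -1 then 0 else 1) := by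
    apply finrank_of_card
    rw [inf_WL, card_WL, ← prod_pow_eq_pow_sum]
    apply prod_congr rfl
    intro p _
    exact card_LPU a p
  have hfU : Module.finrank (ZMod 2) (AM M ⊓
      WL M.primeFactors (fun _ => LU) (fun _ => xcLU) :
        Submodule (ZMod 2) (M.primeFactors → XX)) = M.primeFactors.card + 2 := by
    apply finrank_of_card
    rw [card_inf hMo hS]
    exact card_U hM hMo
  have key := hLAG (M.primeFactors → XX) (BB M.primeFactors (fun p => b2z (sg0 p (-1))))
    (QQ M.primeFactors (fun p => b2z (sg0 p (-1))) (fun p => b2z (sgn p 1))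
      (fun p => b2z (dv p 1)) (fun p => b2z (dv p 1))
      (fun p => b2z (sgn p 1))) (2 * M.primeFactors.card) (AM M)
    (WL M.primeFactors (LP a) (xcLP a)) (WL M.primeFactors (fun _ => LU) (fun _ => xcLU))
    (by rw [finrank_V]; ring) (BB_nondeg _ _) (QQ_add _ _ _ _ _ _) hQA hQW hQW' hfA hfW hfW'
  refine ⟨Module.finrank (ZMod 2) (AM M ⊓ WL M.primeFactors (LP a) (xcLP a) :
      Submodule (ZMod 2) (M.primeFactors → XX)), ?_, ?_⟩
  · rw [← card_inf hMo hS (LP a) (xcLP a), card_sub]
  · rw [hfI, hfU] at key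
    have h1 : ∑ p ∈ M.primeFactors,
        (if ¬ (p : ℤ) ∣ a ∧ ¬ jacobiSym (-a) p = -1 then 0 else 1) +
        (M.primeFactors.filter
        (fun p : ℕ => ¬ (p : ℤ) ∣ a ∧ jacobiSym (-a) p = 1)).card = M.primeFactors.card := by
      have h2 : (M.primeFactors.filter
          (fun p : ℕ => ¬ (p : ℤ) ∣ a ∧ jacobiSym (-a) p = 1)) = M.primeFactors.filter
          (fun p : ℕ => ¬ (p : ℤ) ∣ a ∧ ¬ jacobiSym (-a) p = -1) := by
        apply filter_congr
        intro p hpN
        have hpp := hp p hpN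
        constructor
        · rintro ⟨h3, h4⟩
          exact ⟨h3, by rw [h4]; norm_num⟩
        · rintro ⟨h3, h4⟩
          refine ⟨h3, ?_⟩
          have hg : (-a).gcd p = 1 := by
            rw [Int.gcd_comm, ← Int.isCoprime_iff_gcd_eq_one]
            exact ((Nat.prime_iff_prime_int.1 hpp).coprime_iff_not_dvd).2 (by rwa [dvd_neg])
          exact (jacobiSym.eq_one_or_neg_one hg).resolve_right h4
      rw [h2, card_filter, ← sum_add_distrib, card_eq_sum_ones]
      refine sum_congr rfl fun p _ => ?_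
      split_ifs <;> rfl
    generalize (∑ p ∈ M.primeFactors,
        (if ¬ (p : ℤ) ∣ a ∧ ¬ jacobiSym (-a) p = -1 then 0 else 1)) = x at h1 key
    generalize (M.primeFactors.filter
        (fun p : ℕ => ¬ (p : ℤ) ∣ a ∧ jacobiSym (-a) p = 1)).card = y at h1 ⊢
    generalize Module.finrank (ZMod 2) (AM M ⊓ WL M.primeFactors (LP a) (xcLP a) :
      Submodule (ZMod 2) (M.primeFactors → XX)) = z at key ⊢
    rw [Nat.even_iff] at key ⊢
    omega

/-- **ABSB** -/
theorem ABSB (hLAG : Pool.Agent.Y667.RZ.St_LAG) : St_ABSB := ABSB' hLAG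

end Pool.Agent.Y350.PA
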